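import Pool.Agent.MP_28f8a1_an.Transfer

/-! The polynomials `c ↦ f_c^k(c)` have no critical point with a large critical value. -/

set_option autoImplicit false

namespace Pool.Agent.MP_28f8a1_an.M22

open MeasureTheory Metric Set Real Filter Topology
open scoped ENNReal

variable {e : ℕ} {c : ℂ}

theorem cl_sq (he : 1 ≤ e) {x : ℝ} (hx : 1 ≤ x) : x ^ 2 ≤ x ^ (e + 1) :=
  pow_le_pow_right₀ hx (by omega)

theorem cl_grow (he : 1 ≤ e) {z : ℂ} (hz : 2 < ‖z‖) (hc : ‖c‖ ≤ ‖z‖) : ‖z‖ < ‖fq e c z‖ := by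
  have h1 := cl_sq he (x := ‖z‖) (by linarith)
  have h2 : ‖z‖ ^ (e + 1) ≤ ‖fq e c z‖ + ‖c‖ := by
    simpa [fq] using norm_sub_le (fq e c z) c
  nlinarith

theorem cl_back (he : 1 ≤ e) {z : ℂ} {A : ℝ} (hA : 1 ≤ A) (h : ‖fq e c z‖ + ‖c‖ ≤ 2 * A) :
    ‖z‖ ≤ √(2 * A) := by
  refine Real.le_sqrt_of_sq_le ?_
  have h2 : ‖z‖ ^ (e + 1) ≤ ‖fq e c z‖ + ‖c‖ := by
    simpa [fq] using norm_sub_le (fq e c z) c
  rcases le_total 1 ‖z‖ with h1 | h1
  · linarith [cl_sq he h1]
  · nlinarith [norm_nonneg z]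

theorem cl_max (he : 1 ≤ e) {k : ℕ} (h : 2 < ‖cn e c k‖) : ∀ j ≤ k, ‖cn e c j‖ ≤ ‖cn e c k‖ := by
  obtain ⟨i, hi, hm⟩ := Finset.exists_max_image (Finset.range (k + 1)) (fun j => ‖cn e c j‖)
    ⟨0, by simp⟩
  have hm' : ∀ j ≤ k, ‖cn e c j‖ ≤ ‖cn e c i‖ := fun j hj =>
    hm j (Finset.mem_range.mpr (by omega))
  rcases (Nat.lt_succ_iff.mp (Finset.mem_range.mp hi)).eq_or_lt with rfl | hik
  · exact hm'
  · have h1 := cl_grow (c := c) he (h.trans_le (hm' k le_rfl)) (hm' 0 (Nat.zero_le _))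
    rw [← cn_succ] at h1
    exact absurd (hm' (i + 1) hik) (not_le.mpr h1)

theorem cl_small (he : 1 ≤ e) {k : ℕ} (h : 2 < ‖cn e c k‖) {j : ℕ} (hj : j < k) :
    ‖cn e c j‖ ≤ √(2 * ‖cn e c k‖) := by
  refine cl_back (c := c) he (by linarith) ?_
  rw [← cn_succ]
  have h1 := cl_max he h (j + 1) hj
  have h2 : ‖c‖ ≤ _ := cl_max he h 0 (Nat.zero_le _)
  linarith

theorem cl_ne (he : 1 ≤ e) {k : ℕ} (h : 2 < ‖cn e c k‖) (n : ℕ) : cn e c n ≠ 0 := by
  intro h0
  rcases lt_or_ge n k with hn | hn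
  · obtain ⟨m, rfl⟩ : ∃ m, k = m + (n + 1) := ⟨k - (n + 1), by omega⟩
    have h1 : cn e c (m + (n + 1)) = cn e c m := by
      rw [cn, Function.iterate_add_apply, ← cn, cn_succ, h0, cn]
      simp [fq]
    have h2 := cl_small he h (j := m) (by omega)
    rw [h1] at h h2
    have h3 := Real.sq_sqrt (show 0 ≤ 2 * ‖cn e c m‖ by positivity)
    nlinarith [Real.sqrt_nonneg (2 * ‖cn e c m‖)]
  · have h2 : ‖c‖ ≤ _ := cl_max he h 0 (Nat.zero_le _)
    have h1 : ∀ m, ‖cn e c k‖ ≤ ‖cn e c (k + m)‖ := by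
      intro m
      induction m with
      | zero => exact le_rfl
      | succ m ih =>
        rw [← add_assoc, cn_succ]
        exact ih.trans (cl_grow he (h.trans_le ih) (h2.trans ih)).le
    have h3 := h1 (n - k)
    rw [Nat.add_sub_cancel' hn, h0, norm_zero] at h3
    linarith

theorem cl_Pd (h0 : ∀ n, cn e c n ≠ 0) (n : ℕ) : Pd e c c n ≠ 0 := by
  induction n with
  | zero => simp [Pd_zero]
  | succ n ih =>
    rw [Pd_succ']
    exact mul_ne_zero (mul_ne_zero (Nat.cast_ne_zero.mpr (Nat.succ_ne_zero e))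
      (pow_ne_zero _ (h0 n))) ih

theorem cl_deriv (h0 : ∀ n, cn e c n ≠ 0) (n : ℕ) :
    HasDerivAt (fun c => cn e c n) (Pd e c c n * Sn e c n) c := by
  induction n with
  | zero =>
    rw [Pd_zero, Sn, Finset.sum_range_one, an_zero, one_mul]
    exact hasDerivAt_id c
  | succ n ih =>
    simp only [cn_succ, fq]
    refine ((ih.pow (e + 1)).add (hasDerivAt_id c)).congr_deriv ?_
    have h1 : Pd e c c (n + 1) * an e c (n + 1) = 1 := mul_inv_cancel₀ (cl_Pd h0 (n + 1))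
    rw [Sn, Sn, Finset.sum_range_succ _ (n + 1), mul_add, h1, Pd_succ', Nat.add_sub_cancel, cn]
    ring

theorem cl_circ {s : Finset ℕ} {a p : ℕ → ℂ} {r : ℝ} (hr : 0 < r) (hp : ∀ j ∈ s, ‖p j‖ < r) :
    ENNReal.ofReal (2 * π * ‖∑ j ∈ s, a j‖) ≤ ENNReal.ofReal r *
      ∫⁻ θ in Ioo (-π) π, ENNReal.ofReal
        ‖∑ j ∈ s, a j * (circleMap 0 r θ - p j)⁻¹‖ := by
  set S := ∑ j ∈ s, a j with hS
  obtain ⟨u, hu1, hu⟩ : ∃ u : ℂ, ‖u‖ = 1 ∧ u * starRingEnd ℂ S = ‖S‖ := by
    by_cases h0 : S = 0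
    · exact ⟨1, by simp, by simp [h0]⟩
    · have h1 : starRingEnd ℂ S ≠ 0 := by simpa using h0
      refine ⟨(‖S‖ : ℂ) / starRingEnd ℂ S, ?_, by field_simp⟩
      rw [norm_div, Complex.norm_real, norm_norm, Complex.norm_conj,
        div_self (norm_ne_zero_iff.mpr h0)]
  have hr' : (r : ℂ) ≠ 0 := by exact_mod_cast hr.ne'
  have hne : ∀ j ∈ s, ∀ z : ℂ, ‖z‖ ≤ r → (r : ℂ) ^ 2 - starRingEnd ℂ (p j) * z ≠ 0 := by
    intro j hj z hz h
    have h1 := congrArg norm (sub_eq_zero.mp h)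
    rw [norm_pow, norm_mul, Complex.norm_conj, Complex.norm_real, Real.norm_of_nonneg hr.le] at h1
    nlinarith [hp j hj, norm_nonneg (p j), norm_nonneg z]
  have hd : DiffContOnCl ℂ (fun z : ℂ => u * ∑ j ∈ s, starRingEnd ℂ (a j) * r *
      ((r : ℂ) ^ 2 - starRingEnd ℂ (p j) * z)⁻¹) (ball 0 r) := by
    refine DifferentiableOn.diffContOnCl ?_
    rw [closure_ball _ hr.ne']
    refine (DifferentiableOn.fun_sum fun j hj => (DifferentiableOn.inv (by fun_prop)
      fun z hz => hne j hj z (by simpa using hz)).const_mul _).const_mul u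
  have h := circ_lower hr hd (u := fun z => ‖∑ j ∈ s, a j * (z - p j)⁻¹‖) (fun z hz => by
    rw [sub_zero] at hz
    refine (Complex.re_le_norm _).trans (le_of_eq ?_)
    have hz0 : z ≠ 0 := by
      rintro rfl
      simp at hz
      exact hr.ne hz
    have hzz : z * starRingEnd ℂ z = (r : ℂ) ^ 2 := by
      rw [Complex.mul_conj, Complex.normSq_eq_norm_sq, hz]
      push_cast
      rfl
    have h1 : ∑ j ∈ s, starRingEnd ℂ (a j) * r * ((r : ℂ) ^ 2 - starRingEnd ℂ (p j) * z)⁻¹ =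
        r * z⁻¹ * starRingEnd ℂ (∑ j ∈ s, a j * (z - p j)⁻¹) := by
      rw [map_sum, Finset.mul_sum]
      refine Finset.sum_congr rfl fun j _ => ?_
      rw [← hzz, mul_comm _ z, ← mul_sub, map_mul, map_inv₀, map_sub, mul_inv]
      ring
    rw [h1, norm_mul, norm_mul, hu1, Complex.norm_conj, norm_mul, norm_inv, hz, Complex.norm_real,
      Real.norm_of_nonneg hr.le, mul_inv_cancel₀ hr.ne', one_mul, one_mul])
  have h2 : (u * ∑ j ∈ s, starRingEnd ℂ (a j) * r *
      ((r : ℂ) ^ 2 - starRingEnd ℂ (p j) * 0)⁻¹) = ((‖S‖ / r : ℝ) : ℂ) := by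
    simp only [mul_zero, sub_zero]
    rw [← Finset.sum_mul, ← Finset.sum_mul, ← map_sum, ← hS, ← mul_assoc, ← mul_assoc, hu]
    push_cast
    field_simp
  rw [h2, Complex.ofReal_re] at h
  refine le_trans (le_of_eq ?_) (mul_le_mul_right h _)
  rw [← ENNReal.ofReal_mul hr.le]
  congr 1
  field_simp

theorem cl_Sn (he : 1 ≤ e) {N : ℕ} (h : 32 < ‖cn e c (N + 1)‖) : Sn e c (N + 1) ≠ 0 := by
  intro hS
  set A := ‖cn e c (N + 1)‖ with hA
  have h2 : 2 < A := by linarith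
  have h0 := cl_ne he h2
  set s := √(2 * A) with hs
  have hs0 : 0 < s := Real.sqrt_pos.mpr (by linarith)
  have hs4 : s < A / 4 := (Real.sqrt_lt' (by linarith)).mpr (by nlinarith)
  set a := ‖an e c (N + 1)‖ with ha
  have ha0 : 0 < a := norm_pos_iff.mpr (inv_ne_zero (cl_Pd h0 _))
  have hsum : ‖∑ j ∈ Finset.range (N + 1), an e c j‖ = a := by
    rw [Sn, Finset.sum_range_succ] at hS
    rw [eq_neg_of_add_eq_zero_left hS, norm_neg]
  have hT := transfer (measurable_phi (e := e) (c := c) N)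
    ((countable_range (cn e c)).measure_zero volume)
    (fun y hy => phi_id he h0 N fun n hn => hy ⟨n, hn.symm⟩)
    (X := ball 0 (A / 2)) measurableSet_ball
  have hc : ‖c‖ ≤ A := cl_max he h2 0 (Nat.zero_le _)
  have hpre : fq e c ⁻¹' ball 0 (A / 2) ⊆ closedBall 0 s := fun y hy => by
    rw [mem_preimage, mem_ball_zero_iff] at hy
    rw [mem_closedBall_zero_iff]
    exact cl_back (c := c) he (by linarith) (by linarith)
  have hE : LI (ball 0 (A / 2)) (fun y => ‖Er e c N y‖) ≤ ENNReal.ofReal (a * π * A / 2) := by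
    refine (LI_mono (v := fun _ => a * (A / 2)⁻¹) measurableSet_ball fun y hy => ?_).trans ?_
    · rw [Er, hS, zero_mul, zero_sub, norm_neg, norm_mul, norm_inv]
      rw [mem_ball_zero_iff] at hy
      have := norm_sub_le y (y - cn e c (N + 1))
      rw [sub_sub_cancel] at this
      gcongr
      linarith
    · rw [LI_ball_const _ (by linarith) (by positivity)]
      refine (congrArg _ ?_).le
      field_simp
  have hfin : LI (closedBall 0 s) (fun y => ‖phi e c N y‖) ≠ ∞ := by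
    refine ne_top_of_le_ne_top ?_ ((LI_mono_set (closedBall_subset_ball (lt_add_one s)) _).trans
      ((LI_mono (v := fun y => ∑ j ∈ Finset.range (N + 1),
      ‖an e c j‖ * gk (cn e c j) y) measurableSet_ball fun y _ => ?_).trans
      (LI_sum_le _ _ fun j _ => by fun_prop)))
    · refine ENNReal.sum_ne_top.mpr fun j _ => ?_
      rw [LI_const_mul _ (norm_nonneg _)]
      exact ENNReal.mul_ne_top ENNReal.ofReal_ne_top
        (ne_top_of_le_ne_top ENNReal.ofReal_ne_top (LI_gk_le _ _ _))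
    · refine (norm_sum_le _ _).trans_eq (Finset.sum_congr rfl fun j _ => ?_)
      rw [norm_mul, norm_inv, gk]
  have hm : MeasurableSet {z : ℂ | ‖z - 0‖ ∈ Ioo s (A / 2)} :=
    (by fun_prop : Measurable fun z : ℂ => ‖z - 0‖) measurableSet_Ioo
  have hlow : ENNReal.ofReal (2 * π * a * (A / 2 - s)) ≤
      LI {z : ℂ | ‖z - 0‖ ∈ Ioo s (A / 2)} (fun y => ‖phi e c N y‖) := by
    rw [LI_polar (measurable_phi N).norm 0 measurableSet_Ioo fun r hr => hs0.trans hr.1,
      ENNReal.ofReal_mul (by positivity), ← Real.volume_Ioo, ← setLIntegral_const]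
    refine setLIntegral_mono' measurableSet_Ioo fun r hr => ?_
    rw [← hsum]
    exact cl_circ (hs0.trans hr.1) fun j hj =>
      (cl_small he h2 (Finset.mem_range.mp hj)).trans_lt hr.1
  have hsplit : LI (closedBall 0 s) (fun y => ‖phi e c N y‖) +
      LI {z : ℂ | ‖z - 0‖ ∈ Ioo s (A / 2)} (fun y => ‖phi e c N y‖) ≤
      LI (ball 0 (A / 2)) (fun y => ‖phi e c N y‖) := by
    unfold LI
    rw [← lintegral_union hm (disjoint_left.mpr fun z hz hz' => by
      rw [mem_closedBall_zero_iff] at hz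
      exact absurd hz'.1 (by simpa using hz))]
    refine lintegral_mono_set (union_subset (closedBall_subset_ball (by linarith)) fun z hz => ?_)
    simpa using hz.2
  have h5 := (ENNReal.add_le_add_iff_left hfin).mp ((add_le_add_right hlow _).trans (hsplit.trans
    (le_self_add.trans (hT.trans (add_le_add (LI_mono_set hpre _) hE)))))
  rw [ENNReal.ofReal_le_ofReal_iff (by positivity)] at h5
  nlinarith [mul_pos ha0 pi_pos]

/-- No critical point of `c ↦ f_c^k(c)` has a critical value of modulus larger than `32`. -/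
theorem claim (he : 1 ≤ e) {k : ℕ} (h : 32 < ‖(fq e c)^[k] c‖) :
    deriv (fun c => (fq e c)^[k] c) c ≠ 0 := by
  have h0 := cl_ne he (k := k) (lt_trans (by norm_num) h)
  have h1 := (cl_deriv h0 k).deriv
  simp only [cn] at h1
  rw [h1]
  refine mul_ne_zero (cl_Pd h0 k) ?_
  rcases k with _ | N
  · simp [Sn, an_zero]
  · exact cl_Sn he h

end Pool.Agent.MP_28f8a1_an.M22
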